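import Pool.Agent.Lib.MP_a8a7e3_lc.Defs

section

set_option autoImplicit false

open Set Topology Filter Cardinal

namespace Pool.Agent.MP_a8a7e3

/-- The natural number whose binary digits are the first `n` entries of `x`. -/
def T1num (x : C) : ℕ → ℕ
  | 0 => 0
  | n + 1 => 2 * T1num x n + (x n : ℕ)

lemma T1sum (x : C) (n : ℕ) :
    ∑ i ∈ Finset.range n, Real.ofDigitsTerm x i = (T1num x n : ℝ) * ((2:ℝ)^n)⁻¹ := by
  induction n with
  | zero => simp [T1num]
  | succ n ih =>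
    rw [Finset.sum_range_succ, ih, T1num, Real.ofDigitsTerm]
    push_cast
    field_simp
    ring

lemma T1num_inj (x y : C) : ∀ n, T1num x n = T1num y n → ∀ i < n, x i = y i := by
  intro n
  induction n with
  | zero => intro _ i hi; omega
  | succ n ih =>
    intro h i hi
    simp only [T1num] at h
    have hx := (x n).isLt
    have hy := (y n).isLt
    have h1 : T1num x n = T1num y n := by omega
    have h2 : (x n : ℕ) = y n := by omega
    rcases Nat.lt_succ_iff_lt_or_eq.1 hi with h3 | rfl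
    · exact ih h1 i h3
    · exact Fin.ext h2

/-- The binary expansion map. -/
noncomputable def T1e : C → ℝ := fun x => Real.ofDigits x

lemma T1e_eq (x : C) (n : ℕ) :
    T1e x = ((T1num x n : ℝ) + T1e (fun i => x (i + n))) * ((2:ℝ)^n)⁻¹ := by
  have := Real.ofDigits_eq_sum_add_ofDigits x n
  rw [T1sum] at this
  unfold T1e
  rw [this]
  push_cast
  ring

lemma T1e_nonneg (x : C) : 0 ≤ T1e x := Real.ofDigits_nonneg x

lemma T1e_le_one (x : C) : T1e x ≤ 1 := Real.ofDigits_le_one x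

lemma T1_key (O : Set C) (hO : IsOpen O) (hne : O.Nonempty) :
    ∃ a b : ℝ, a < b ∧ Ioo a b ⊆ T1e '' O ∧ T1e ⁻¹' (Ioo a b) ⊆ O := by
  obtain ⟨x, hx⟩ := hne
  obtain ⟨n, hn⟩ : ∃ n : ℕ, ∀ y : C, (∀ i < n, x i = y i) → y ∈ O := by
    obtain ⟨I, u, hu, hsub⟩ := isOpen_pi_iff.1 hO x hx
    refine ⟨I.sup id + 1, fun y hy => hsub ?_⟩
    intro i hi
    have : i ≤ I.sup id := Finset.le_sup (f := id) hi
    rw [← hy i (by omega)]
    exact (hu i hi).2
  have h2 : (0:ℝ) < 2 ^ n := by positivity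
  refine ⟨(T1num x n : ℝ) * ((2:ℝ)^n)⁻¹, ((T1num x n : ℝ) + 1) * ((2:ℝ)^n)⁻¹, ?_, ?_, ?_⟩
  · exact mul_lt_mul_of_pos_right (by linarith) (by positivity)
  · intro t ht
    have h1 : (T1num x n : ℝ) < t * 2 ^ n := by
      have := ht.1
      rwa [← div_eq_mul_inv, div_lt_iff₀ h2] at this
    have h3 : t * 2 ^ n < (T1num x n : ℝ) + 1 := by
      have := ht.2
      rwa [← div_eq_mul_inv, lt_div_iff₀ h2] at this
    obtain ⟨z, -, hz⟩ := Real.ofDigits_SurjOn (b := 2) (by norm_num)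
      (show t * 2 ^ n - T1num x n ∈ Icc (0:ℝ) 1 from ⟨by linarith, by linarith⟩)
    let y : C := fun i => if i < n then x i else z (i - n)
    have hy : ∀ i < n, x i = y i := fun i hi => by simp [y, hi]
    have hnum : ∀ m ≤ n, T1num y m = T1num x m := by
      intro m
      induction m with
      | zero => intro _; rfl
      | succ m ih =>
        intro hm
        rw [T1num, T1num, ih (by omega), hy m (by omega)]
    refine ⟨y, hn y hy, ?_⟩
    rw [T1e_eq y n, hnum n le_rfl]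
    have : (fun i => y (i + n)) = z := by
      funext i
      simp [y]
    rw [this]
    show (_ + Real.ofDigits z) * _ = _
    rw [hz]
    field_simp
    ring
  · intro y hy
    have hy' : T1e y ∈ Ioo _ _ := hy
    rw [T1e_eq y n] at hy'
    have h0 := T1e_nonneg (fun i => y (i + n))
    have h1 := T1e_le_one (fun i => y (i + n))
    have hinv : (0:ℝ) < ((2:ℝ)^n)⁻¹ := by positivity
    have h3 : (T1num x n : ℝ) < (T1num y n : ℝ) + T1e (fun i => y (i + n)) :=
      lt_of_mul_lt_mul_right hy'.1 hinv.le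
    have h4 : (T1num y n : ℝ) + T1e (fun i => y (i + n)) < (T1num x n : ℝ) + 1 :=
      lt_of_mul_lt_mul_right hy'.2 hinv.le
    have h5 : (T1num x n : ℝ) < ((T1num y n + 1 : ℕ) : ℝ) := by push_cast; linarith
    have h6 : (T1num y n : ℝ) < ((T1num x n + 1 : ℕ) : ℝ) := by push_cast; linarith
    have h5' := Nat.cast_lt.1 h5
    have h6' := Nat.cast_lt.1 h6
    exact hn y (T1num_inj x y n (by omega))

lemma T1e_continuous : Continuous T1e := Real.continuous_ofDigits

lemma T1_image_nwd (F : Set C) (hF : IsNowhereDense F) : IsNowhereDense (T1e '' F) := by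
  have hcl : IsClosed (T1e '' closure F) :=
    (isClosed_closure.isCompact.image T1e_continuous).isClosed
  have hint : interior (T1e '' closure F) = ∅ := by
    by_contra hne
    obtain ⟨t, ht⟩ := nonempty_iff_ne_empty.2 hne
    have hV : IsOpen (T1e ⁻¹' interior (T1e '' closure F)) :=
      isOpen_interior.preimage T1e_continuous
    obtain ⟨z, -, hz⟩ := interior_subset ht
    have hVne : (T1e ⁻¹' interior (T1e '' closure F)).Nonempty :=
      ⟨z, show T1e z ∈ interior (T1e '' closure F) by rw [hz]; exact ht⟩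
    have hO : IsOpen (T1e ⁻¹' interior (T1e '' closure F) \ closure F) :=
      hV.sdiff isClosed_closure
    have hOne : (T1e ⁻¹' interior (T1e '' closure F) \ closure F).Nonempty := by
      by_contra h
      rw [not_nonempty_iff_eq_empty, sdiff_eq_empty] at h
      have := interior_maximal h hV
      rw [hF] at this
      exact hVne.ne_empty (subset_empty_iff.1 this)
    obtain ⟨a, b, hab, h1, h2⟩ := T1_key _ hO hOne
    have hmid : (a + b) / 2 ∈ Ioo a b := ⟨by linarith, by linarith⟩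
    obtain ⟨w, hw, hwe⟩ := h1 hmid
    have hw' : T1e w ∈ T1e '' closure F := interior_subset hw.1
    obtain ⟨y, hy, hye⟩ := hw'
    have : y ∈ T1e ⁻¹' Ioo a b :=
      show T1e y ∈ Ioo a b by rw [hye, hwe]; exact hmid
    exact (h2 this).2 hy
  have : IsNowhereDense (T1e '' closure F) := by
    rw [IsNowhereDense, hcl.closure_eq, hint]
  exact this.mono (image_mono subset_closure)

lemma T1_preimage_nwd (N : Set ℝ) (hN : IsNowhereDense N) : IsNowhereDense (T1e ⁻¹' N) := by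
  have hcl : IsClosed (T1e ⁻¹' closure N) := isClosed_closure.preimage T1e_continuous
  have hint : interior (T1e ⁻¹' closure N) = ∅ := by
    by_contra hne
    obtain ⟨a, b, hab, h1, -⟩ := T1_key _ isOpen_interior (nonempty_iff_ne_empty.2 hne)
    have h3 : Ioo a b ⊆ closure N := by
      intro t ht
      obtain ⟨y, hy, rfl⟩ := h1 ht
      have hy' : y ∈ T1e ⁻¹' closure N := interior_subset hy
      exact hy'
    have h4 := interior_maximal h3 isOpen_Ioo
    rw [hN] at h4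
    exact (nonempty_Ioo.2 hab).ne_empty (subset_empty_iff.1 h4)
  have : IsNowhereDense (T1e ⁻¹' closure N) := by
    rw [IsNowhereDense, hcl.closure_eq, hint]
  exact this.mono (preimage_mono subset_closure)

/-- T1 -/
theorem exists_digit_map : ∃ e : C → ℝ, Continuous e ∧
    (∀ Z, IsMeagre Z → IsMeagre (e '' Z)) ∧ (∀ N, IsMeagre N → IsMeagre (e ⁻¹' N)) ∧
    ∀ O : Set C, IsOpen O → O.Nonempty → ∃ a b : ℝ, a < b ∧ Ioo a b ⊆ e '' O := by
  refine ⟨T1e, T1e_continuous, ?_, ?_, ?_⟩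
  · intro Z hZ
    obtain ⟨S, hS, hSc, hZS⟩ := isMeagre_iff_countable_union_isNowhereDense.1 hZ
    refine isMeagre_iff_countable_union_isNowhereDense.2
      ⟨(fun s => T1e '' s) '' S, ?_, hSc.image _, ?_⟩
    · rintro _ ⟨s, hs, rfl⟩
      exact T1_image_nwd s (hS s hs)
    · rintro _ ⟨z, hz, rfl⟩
      obtain ⟨s, hs, hzs⟩ := hZS hz
      exact ⟨T1e '' s, ⟨s, hs, rfl⟩, ⟨z, hzs, rfl⟩⟩
  · intro N hN
    obtain ⟨S, hS, hSc, hNS⟩ := isMeagre_iff_countable_union_isNowhereDense.1 hN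
    refine isMeagre_iff_countable_union_isNowhereDense.2
      ⟨(fun s => T1e ⁻¹' s) '' S, ?_, hSc.image _, ?_⟩
    · rintro _ ⟨s, hs, rfl⟩
      exact T1_preimage_nwd s (hS s hs)
    · intro z hz
      obtain ⟨s, hs, hzs⟩ := hNS hz
      exact ⟨T1e ⁻¹' s, ⟨s, hs, rfl⟩, hzs⟩
  · intro O hO hne
    obtain ⟨a, b, hab, h1, -⟩ := T1_key O hO hne
    exact ⟨a, b, hab, h1⟩

end Pool.Agent.MP_a8a7e3
end

section

set_option autoImplicit false

open Set Topology Filter Cardinal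

namespace Pool.Agent.MP_a8a7e3

/-- The homeomorphism between the power of the Cantor space and the Cantor space. -/
def T2_homeo : X ≃ₜ C where
  toFun x := fun n => x (Nat.unpair n).1 (Nat.unpair n).2
  invFun c := fun i j => c (Nat.pair i j)
  left_inv x := by
    funext i j
    simp
  right_inv c := by
    funext n
    simp
  continuous_toFun := continuous_pi fun n =>
    (continuous_apply (Nat.unpair n).2).comp (continuous_apply (Nat.unpair n).1)
  continuous_invFun := continuous_pi fun i => continuous_pi fun j =>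
    continuous_apply (Nat.pair i j)

/-- T2, from T1 -/
theorem exists_prod_map_of (T1 : ∃ e : C → ℝ, Continuous e ∧
    (∀ Z, IsMeagre Z → IsMeagre (e '' Z)) ∧ (∀ N, IsMeagre N → IsMeagre (e ⁻¹' N)) ∧
    ∀ O : Set C, IsOpen O → O.Nonempty → ∃ a b : ℝ, a < b ∧ Ioo a b ⊆ e '' O) :
    ∃ e : X → ℝ, Continuous e ∧
    (∀ Z, IsMeagre Z → IsMeagre (e '' Z)) ∧ (∀ N, IsMeagre N → IsMeagre (e ⁻¹' N)) := by
  obtain ⟨e, he, h1, h2, -⟩ := T1
  refine ⟨e ∘ T2_homeo, he.comp T2_homeo.continuous, fun Z hZ => ?_, fun N hN => ?_⟩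
  · rw [Set.image_comp]
    apply h1
    rw [T2_homeo.image_eq_preimage_symm]
    exact hZ.preimage_of_isOpenMap T2_homeo.symm.continuous T2_homeo.symm.isOpenMap
  · rw [Set.preimage_comp]
    exact (h2 N hN).preimage_of_isOpenMap T2_homeo.continuous T2_homeo.isOpenMap

end Pool.Agent.MP_a8a7e3
end

section

set_option autoImplicit false

open Set Topology Filter Cardinal

namespace Pool.Agent.MP_a8a7e3

/-- Translates of meager sets are meager. -/
theorem T3_translate (q : ℝ) {A : Set ℝ} (hA : IsMeagre A) :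
    IsMeagre ((fun x => q + x) '' A) := by
  have e : (fun x => q + x) '' A = (Homeomorph.addLeft q).symm ⁻¹' A := by
    rw [← (Homeomorph.addLeft q).image_eq_preimage_symm]
    rfl
  rw [e]
  exact hA.preimage_of_isOpenMap (Homeomorph.addLeft q).symm.continuous
    (Homeomorph.addLeft q).symm.isOpenMap

/-- T3, from T1 -/
theorem rank_transfer_of (T1 : ∃ e : C → ℝ, Continuous e ∧
    (∀ Z, IsMeagre Z → IsMeagre (e '' Z)) ∧ (∀ N, IsMeagre N → IsMeagre (e ⁻¹' N)) ∧
    ∀ O : Set C, IsOpen O → O.Nonempty → ∃ a b : ℝ, a < b ∧ Ioo a b ⊆ e '' O)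
    (κ : Cardinal.{0}) (r : Set ℝ → Ordinal.{0}) (h : IsRank κ r)
    (hu : ∀ α < κ.ord, ∃ A, IsMeagre A ∧ α < r A) :
    ∃ ρ : Set C → Ordinal.{0}, IsRank κ ρ ∧ LocUnbdd κ ρ := by
  obtain ⟨e, he, h1, h2, h3⟩ := T1
  have hm : ∀ Z : Set C, IsMeagre Z →
      IsMeagre (⋃ q : ℚ, (fun x => (q : ℝ) + x) '' (e '' Z)) := fun Z hZ =>
    isMeagre_iUnion fun q => T3_translate q (h1 Z hZ)
  refine ⟨fun Z => r (⋃ q : ℚ, (fun x => (q : ℝ) + x) '' (e '' Z)), ?_, ?_⟩
  · refine ⟨fun A B hB hAB => ?_, fun A hA => ?_, fun A α hA hα => ?_⟩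
    · apply h.mono _ _ (hm B hB)
      exact iUnion_mono fun q => image_mono (image_mono hAB)
    · exact h.lt _ (hm A hA)
    · have e1 : (⋃ q : ℚ, (fun x => (q : ℝ) + x) '' (e '' ⋃ n, A n)) =
          ⋃ n, ⋃ q : ℚ, (fun x => (q : ℝ) + x) '' (e '' A n) := by
        rw [iUnion_comm]
        congr 1
        funext q
        rw [image_iUnion, image_iUnion]
      show r _ ≤ α
      rw [e1]
      exact h.iUnion _ α (fun n => hm _ (hA n)) hα
  · intro O hO hne α hα
    obtain ⟨A, hA, hαA⟩ := hu α hα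
    obtain ⟨a, b, hab, hO'⟩ := h3 O hO hne
    have hAm : IsMeagre (⋃ q : ℚ, (fun x => (q : ℝ) + x) '' A) :=
      isMeagre_iUnion fun q => T3_translate q hA
    have hZ : IsMeagre (O ∩ e ⁻¹' (⋃ q : ℚ, (fun x => (q : ℝ) + x) '' A)) :=
      (h2 _ hAm).mono inter_subset_right
    refine ⟨O ∩ e ⁻¹' (⋃ q : ℚ, (fun x => (q : ℝ) + x) '' A), inter_subset_left, hZ,
      lt_of_lt_of_le hαA ?_⟩
    apply h.mono _ _ (hm _ hZ)
    intro x hx
    obtain ⟨q, hq1, hq2⟩ := exists_rat_btwn (show a - x < b - x by linarith)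
    obtain ⟨z, hzO, hz⟩ := hO' (show (q : ℝ) + x ∈ Ioo a b from ⟨by linarith, by linarith⟩)
    rw [mem_iUnion]
    refine ⟨-q, e z, ⟨z, ⟨hzO, ?_⟩, rfl⟩, ?_⟩
    · rw [mem_preimage, mem_iUnion]
      exact ⟨q, x, hx, hz.symm⟩
    · rw [hz]
      push_cast
      ring

end Pool.Agent.MP_a8a7e3
end

section

set_option autoImplicit false

open Set Topology Filter Cardinal

namespace Pool.Agent.MP_a8a7e3

/-- a meager set is covered by a sequence of closed meager sets -/
theorem T4_cover {Y : Type} [TopologicalSpace Y] {A : Set Y} (hA : IsMeagre A) :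
    ∃ F : ℕ → Set Y, (∀ m, IsClosed (F m)) ∧ (∀ m, IsNowhereDense (F m)) ∧ A ⊆ ⋃ m, F m := by
  obtain ⟨S, hS, hSc, hAS⟩ := isMeagre_iff_countable_union_isNowhereDense.mp hA
  have hc : (insert ∅ S).Countable := hSc.insert _
  obtain ⟨f, hf⟩ := hc.exists_eq_range (insert_nonempty _ _)
  have hnd : ∀ m, IsNowhereDense (f m) := by
    intro m
    have : f m ∈ insert ∅ S := by rw [hf]; exact mem_range_self m
    rcases this with h | h
    · rw [h]; exact isNowhereDense_empty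
    · exact hS _ h
  refine ⟨fun m => closure (f m), fun m => isClosed_closure, fun m => (hnd m).closure, ?_⟩
  intro x hx
  obtain ⟨t, ht, hxt⟩ := hAS hx
  have : t ∈ range f := by rw [← hf]; exact mem_insert_of_mem _ ht
  obtain ⟨m, rfl⟩ := this
  exact mem_iUnion.mpr ⟨m, subset_closure hxt⟩

/-- remove from a closed set all basic pieces of small rank -/
theorem T4_trim {Y : Type} [TopologicalSpace Y] {κ : Cardinal.{0}} {ρ : Set Y → Ordinal.{0}}
    (h : IsRank κ ρ) (b : ℕ → Set Y) (γ : Ordinal.{0}) {F : Set Y}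
    (hFm : IsMeagre F) {F' : Set Y}
    (hF' : F' = F \ ⋃ j ∈ {j : ℕ | ρ (F ∩ b j) ≤ γ}, b j) {Z : Set Y} (hZF : Z ⊆ F)
    (hZ : ρ (F' ∩ Z) ≤ γ) : ρ Z ≤ γ := by
  let A : ℕ → Set Y := fun n => Nat.casesOn n (F' ∩ Z)
    (fun j => {x | x ∈ F ∩ b j ∧ ρ (F ∩ b j) ≤ γ})
  have hAm : ∀ n, IsMeagre (A n) := by
    intro n
    cases n with
    | zero =>
      change IsMeagre (F' ∩ Z)
      exact hFm.mono (inter_subset_right.trans hZF)
    | succ j =>
      exact hFm.mono (fun x hx => hx.1.1)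
  have hAr : ∀ n, ρ (A n) ≤ γ := by
    intro n
    cases n with
    | zero => exact hZ
    | succ j =>
      change ρ {x | x ∈ F ∩ b j ∧ ρ (F ∩ b j) ≤ γ} ≤ γ
      by_cases hj : ρ (F ∩ b j) ≤ γ
      · have : {x | x ∈ F ∩ b j ∧ ρ (F ∩ b j) ≤ γ} = F ∩ b j := by
          ext x; simp [hj]
        rw [this]; exact hj
      · have : {x | x ∈ F ∩ b j ∧ ρ (F ∩ b j) ≤ γ} = ∅ := by
          ext x; simp [hj]
        rw [this]
        exact (h.mono ∅ (F' ∩ Z) (hFm.mono (inter_subset_right.trans hZF))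
          (empty_subset _)).trans hZ
  have hsub : Z ⊆ ⋃ n, A n := by
    intro x hx
    by_cases hxF : x ∈ F'
    · exact mem_iUnion.mpr ⟨0, hxF, hx⟩
    · have hxF0 : x ∈ F := hZF hx
      have : x ∈ ⋃ j ∈ {j : ℕ | ρ (F ∩ b j) ≤ γ}, b j := by
        by_contra hcon
        exact hxF (by rw [hF']; exact ⟨hxF0, hcon⟩)
      simp only [mem_iUnion, mem_ofPred_eq, exists_prop] at this
      obtain ⟨j, hj, hxj⟩ := this
      exact mem_iUnion.mpr ⟨j + 1, ⟨hxF0, hxj⟩, hj⟩
  exact (h.mono Z _ (isMeagre_iUnion hAm) hsub).trans (h.iUnion A γ hAm hAr)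

theorem T4_aux (κ : Cardinal.{0}) (ρ : Set C → Ordinal.{0}) (h : IsRank κ ρ)
    (hu : LocUnbdd κ ρ) (γ : Ordinal.{0}) (hγ : γ < κ.ord) (h0 : ρ ∅ ≤ γ) :
    ∃ D : ℕ → Set C, IsBig ρ γ D := by
  obtain ⟨B, hBc, hBne, hB⟩ := TopologicalSpace.exists_countable_basis C
  have hBn : B.Nonempty := by
    obtain ⟨u, hu, -⟩ := hB.exists_subset_of_mem_open (mem_univ (fun _ => 0 : C)) isOpen_univ
    exact ⟨u, hu⟩
  obtain ⟨b, hb⟩ := hBc.exists_eq_range hBn
  have hbB : ∀ n, b n ∈ B := fun n => by rw [hb]; exact mem_range_self n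
  have hbo : ∀ n, IsOpen (b n) := fun n => hB.isOpen (hbB n)
  have hbn : ∀ n, (b n).Nonempty := fun n => by
    rw [nonempty_iff_ne_empty]
    intro h0
    exact hBne (h0 ▸ hbB n)
  have hA : ∀ n, ∃ A ⊆ b n, IsMeagre A ∧ γ < ρ A := fun n => hu (b n) (hbo n) (hbn n) γ hγ
  choose A hAb hAm hAγ using hA
  have hF : ∀ n, ∃ F : ℕ → Set C, (∀ m, IsClosed (F m)) ∧ (∀ m, IsNowhereDense (F m)) ∧
      A n ⊆ ⋃ m, F m := fun n => T4_cover (hAm n)
  choose F hFc hFnd hFA using hF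
  have hFm : ∀ n m, IsMeagre (F n m) := fun n m => (hFnd n m).isMeagre
  let G : ℕ → ℕ → Set C := fun n m => F n m \ ⋃ j ∈ {j : ℕ | ρ (F n m ∩ b j) ≤ γ}, b j
  have hGF : ∀ n m, G n m ⊆ F n m := fun n m => sdiff_subset
  have hGm : ∀ n m, IsMeagre (G n m) := fun n m => (hFm n m).mono (hGF n m)
  have hGc : ∀ n m, IsClosed (G n m) := by
    intro n m
    change IsClosed (F n m ∩ (⋃ j ∈ {j : ℕ | ρ (F n m ∩ b j) ≤ γ}, b j)ᶜ)
    exact (hFc n m).inter (isOpen_biUnion (fun j _ => hbo j)).isClosed_compl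
  refine ⟨fun k => G k.unpair.1 k.unpair.2, fun k => hGc _ _, fun k => hGm _ _, ?_, ?_⟩
  · -- density
    rw [hB.dense_iff]
    intro o ho hone
    have : o ∈ range b := by rw [← hb]; exact ho
    obtain ⟨n, rfl⟩ := this
    by_contra hcon
    rw [not_nonempty_iff_eq_empty] at hcon
    have hempty : ∀ m, b n ∩ G n m = ∅ := by
      intro m
      rw [eq_empty_iff_forall_notMem]
      intro x hx
      have : x ∈ b n ∩ ⋃ k : ℕ, G k.unpair.1 k.unpair.2 := by
        refine ⟨hx.1, mem_iUnion.mpr ⟨Nat.pair n m, ?_⟩⟩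
        simpa using hx.2
      rw [hcon] at this
      exact this
    have hr : ∀ m, ρ (F n m ∩ b n) ≤ γ := by
      intro m
      apply T4_trim h b γ (hFm n m) (F' := G n m) rfl inter_subset_left
      have h00 : G n m ∩ (F n m ∩ b n) = ∅ := by
        rw [eq_empty_iff_forall_notMem]
        intro x hx
        have : x ∈ b n ∩ G n m := ⟨hx.2.2, hx.1⟩
        rw [hempty] at this
        exact this
      rw [h00]
      exact h0
    have hAsub : A n ⊆ ⋃ m, F n m ∩ b n := by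
      intro x hx
      obtain ⟨m, hm⟩ := mem_iUnion.mp (hFA n hx)
      exact mem_iUnion.mpr ⟨m, hm, hAb n hx⟩
    have hmU : ∀ m, IsMeagre (F n m ∩ b n) := fun m => (hFm n m).mono inter_subset_left
    exact absurd ((h.mono _ _ (isMeagre_iUnion hmU) hAsub).trans (h.iUnion _ γ hmU hr))
      (not_le.mpr (hAγ n))
  · intro k O hO hne
    obtain ⟨x, hxG, hxO⟩ := hne
    set n := k.unpair.1
    set m := k.unpair.2
    obtain ⟨u, hu1, hxu, huO⟩ := hB.exists_subset_of_mem_open hxO hO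
    have : u ∈ range b := by rw [← hb]; exact hu1
    obtain ⟨j, rfl⟩ := this
    by_contra hcon
    rw [not_lt] at hcon
    have h1 : ρ (F n m ∩ b j) ≤ γ := by
      apply T4_trim h b γ (hFm n m) (F' := G n m) rfl inter_subset_left
      refine (h.mono _ (G n m ∩ O) ((hGm n m).mono inter_subset_left) ?_).trans hcon
      intro y hy
      exact ⟨hy.1, huO hy.2.2⟩
    have h2 : x ∉ ⋃ j ∈ {j : ℕ | ρ (F n m ∩ b j) ≤ γ}, b j := hxG.2
    apply h2
    simp only [mem_iUnion, mem_ofPred_eq, exists_prop]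
    exact ⟨j, h1, hxu⟩

/-- T4 -/
theorem exists_big (κ : Cardinal.{0}) (ρ : Set C → Ordinal.{0}) (h : IsRank κ ρ)
    (hu : LocUnbdd κ ρ) (γ : Ordinal.{0}) (hγ : γ < κ.ord) : ∃ D : ℕ → Set C, IsBig ρ γ D := by
  obtain ⟨D, hD⟩ := T4_aux κ ρ h hu (max γ (ρ ∅)) (max_lt hγ (h.lt ∅ IsMeagre.empty))
    (le_max_right _ _)
  exact ⟨D, hD.closed, hD.meagre, hD.dense,
    fun m O hO hne => (le_max_left _ _).trans_lt (hD.big m O hO hne)⟩

end Pool.Agent.MP_a8a7e3
end

section

set_option autoImplicit false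

open Set Topology Filter Cardinal

namespace Pool.Agent.MP_a8a7e3

/-- The closed set of pairs `(y, g)` with `y i ∈ D i (g i)`. -/
def T6_Y (D : ℕ → ℕ → Set C) : Set (X × (ℕ → ℕ)) := {p | ∀ i, p.1 i ∈ D i (p.2 i)}

lemma T6_isClosed (D : ℕ → ℕ → Set C) (hc : ∀ i m, IsClosed (D i m)) : IsClosed (T6_Y D) := by
  have h : T6_Y D = ⋂ i, ⋂ m, {p : X × (ℕ → ℕ) | p.2 i ≠ m} ∪ {p | p.1 i ∈ D i m} := by
    ext p
    simp only [T6_Y, mem_ofPred_eq, mem_iInter, mem_union]
    constructor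
    · intro hp i m
      by_cases h : p.2 i = m
      · right; rw [← h]; exact hp i
      · left; exact h
    · intro hp i
      rcases hp i (p.2 i) with h | h
      · exact absurd rfl h
      · exact h
  rw [h]
  refine isClosed_iInter fun i => isClosed_iInter fun m => IsClosed.union ?_ ?_
  · have hcont : Continuous fun p : X × (ℕ → ℕ) => p.2 i := (continuous_apply i).comp continuous_snd
    exact (isClosed_discrete {k : ℕ | k ≠ m}).preimage hcont
  · have hcont : Continuous fun p : X × (ℕ → ℕ) => p.1 i := (continuous_apply i).comp continuous_fst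
    exact (hc i m).preimage hcont

/-- T6 -/
theorem main_baire (B : ℕ → Set C) (hB : TopologicalSpace.IsTopologicalBasis (range B))
    (D : ℕ → ℕ → Set C) (hc : ∀ i m, IsClosed (D i m)) (hd : ∀ i, Dense (⋃ m, D i m))
    (E : ℕ → Set X) (hE : ∀ k, IsClosed (E k))
    (hsub : {x : X | ∀ i, x i ∈ ⋃ m, D i m} ⊆ ⋃ k, E k) :
    ∃ (n k : ℕ) (g o : ℕ → ℕ), (∀ i < n, (D i (g i) ∩ B (o i)).Nonempty) ∧
      {x : X | ∀ i < n, x i ∈ D i (g i) ∩ B (o i)} ⊆ E k := by
  classical
  have hYc := T6_isClosed D hc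
  have : TopologicalSpace.IsCompletelyMetrizableSpace (T6_Y D) := hYc.isCompletelyMetrizableSpace
  have : Nonempty (T6_Y D) := by
    have h1 : ∀ i, ∃ x : C, ∃ m, x ∈ D i m := by
      intro i
      obtain ⟨x, hx⟩ := (hd i).nonempty
      exact ⟨x, mem_iUnion.1 hx⟩
    choose x m hxm using h1
    exact ⟨⟨(x, m), hxm⟩⟩
  have : BaireSpace (T6_Y D) := by
    let := TopologicalSpace.upgradeIsCompletelyMetrizable (T6_Y D)
    infer_instance
  obtain ⟨k, hk⟩ := nonempty_interior_of_iUnion_of_closed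
    (f := fun k => {p : T6_Y D | p.1.1 ∈ E k})
    (fun k => (hE k).preimage (continuous_fst.comp continuous_subtype_val)) (by
      rw [eq_univ_iff_forall]
      intro p
      have hp : p.1.1 ∈ {x : X | ∀ i, x i ∈ ⋃ m, D i m} := fun i => mem_iUnion.2 ⟨_, p.2 i⟩
      obtain ⟨k, hk⟩ := mem_iUnion.1 (hsub hp)
      exact mem_iUnion.2 ⟨k, hk⟩)
  obtain ⟨⟨⟨y0, g0⟩, hp0⟩, hpi⟩ := hk
  obtain ⟨V, hVsub, hVo, hVmem⟩ := mem_interior.1 hpi
  obtain ⟨U, hU, rfl⟩ := isOpen_induced_iff.1 hVo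
  obtain ⟨u, v, hu, hv, hyu, hgv, huv⟩ := isOpen_prod_iff.1 hU y0 g0 hVmem
  obtain ⟨I1, u1, hu1, hu1s⟩ := isOpen_pi_iff.1 hu y0 hyu
  obtain ⟨I2, v1, hv1, hv1s⟩ := isOpen_pi_iff.1 hv g0 hgv
  obtain ⟨n, hn⟩ : ∃ n : ℕ, ∀ i ∈ I1 ∪ I2, i < n :=
    ⟨(I1 ∪ I2).sup id + 1, fun i hi => Nat.lt_succ_of_le (Finset.le_sup (f := id) hi)⟩
  -- basic sets
  have ho : ∀ i, ∃ o : ℕ, y0 i ∈ B o ∧ (i ∈ I1 → B o ⊆ u1 i) := by
    intro i
    by_cases hi : i ∈ I1
    · obtain ⟨W, ⟨o, rfl⟩, hW, hWs⟩ := hB.exists_subset_of_mem_open (hu1 i hi).2 (hu1 i hi).1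
      exact ⟨o, hW, fun _ => hWs⟩
    · obtain ⟨W, ⟨o, rfl⟩, hW, hWs⟩ := hB.exists_subset_of_mem_open (mem_univ (y0 i)) isOpen_univ
      exact ⟨o, hW, fun h => absurd h hi⟩
  choose o ho1 ho2 using ho
  refine ⟨n, k, g0, o, fun i _ => ⟨y0 i, hp0 i, ho1 i⟩, ?_⟩
  intro x hx
  rw [← (hE k).closure_eq, mem_closure_iff]
  intro W hW hxW
  obtain ⟨J, w, hw, hws⟩ := isOpen_pi_iff.1 hW x hxW
  -- choose the new point
  have hex : ∀ i, ∃ (a : C) (m : ℕ), a ∈ D i m ∧ (i < n → a = x i ∧ m = g0 i) ∧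
      (i ∈ J → a ∈ w i) := by
    intro i
    by_cases hin : i < n
    · exact ⟨x i, g0 i, (hx i hin).1, fun _ => ⟨rfl, rfl⟩, fun hi => (hw i hi).2⟩
    · by_cases hiJ : i ∈ J
      · obtain ⟨a, ha1, ha2⟩ := (hd i).inter_open_nonempty (w i) (hw i hiJ).1 ⟨x i, (hw i hiJ).2⟩
        obtain ⟨m, hm⟩ := mem_iUnion.1 ha2
        exact ⟨a, m, hm, fun h => absurd h hin, fun _ => ha1⟩
      · obtain ⟨a, ha⟩ := (hd i).nonempty
        obtain ⟨m, hm⟩ := mem_iUnion.1 ha
        exact ⟨a, m, hm, fun h => absurd h hin, fun h => absurd h hiJ⟩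
  choose a m ham hlt hJ using hex
  refine ⟨a, hws (fun i hi => hJ i hi), ?_⟩
  have hmem : (⟨(a, m), ham⟩ : T6_Y D) ∈ Subtype.val ⁻¹' U := by
    apply huv
    refine ⟨hu1s fun i hi => ?_, hv1s fun i hi => ?_⟩
    · have hin : i < n := hn i (Finset.mem_union_left _ hi)
      have := ho2 i hi (hx i hin).2
      rw [← (hlt i hin).1] at this
      exact this
    · have hin : i < n := hn i (Finset.mem_union_right _ hi)
      have := (hv1 i hi).2
      rw [← (hlt i hin).2] at this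
      exact this
  exact hVsub hmem

end Pool.Agent.MP_a8a7e3
end

section

set_option autoImplicit false

open Set Topology Filter

namespace Pool.Agent.MP_a8a7e3

lemma T5_continuous_cons : Continuous (fun p : C × X => cons p.1 p.2) := by
  refine continuous_pi fun n => ?_
  rcases n with _ | n
  · exact continuous_fst
  · exact (continuous_apply n).comp continuous_snd

lemma T5_continuous_cons_left (a : C) : Continuous (fun y : X => cons a y) :=
  T5_continuous_cons.comp (Continuous.prodMk_right a)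

lemma T5_cons_self (x : X) : cons (x 0) (fun n => x (n + 1)) = x := by
  funext n
  rcases n with _ | n <;> rfl

/-- For a dense open set the section is dense for comeagerly many points. -/
lemma T5_open {U : Set X} (hU : IsOpen U) (hd : Dense U) :
    IsMeagre {a : C | ¬ Dense (sec U a)} := by
  obtain ⟨b, hbc, hbne, hb⟩ := TopologicalSpace.exists_countable_basis X
  set W : Set X → Set C := fun V => {a | ∃ y ∈ V, cons a y ∈ U} with hW
  have hWo : ∀ V ∈ b, IsOpen (W V) := by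
    intro V hV
    have h1 : IsOpen {p : C × X | p.2 ∈ V ∧ cons p.1 p.2 ∈ U} :=
      ((hb.isOpen hV).preimage continuous_snd).inter (hU.preimage T5_continuous_cons)
    have h2 : W V = Prod.fst '' {p : C × X | p.2 ∈ V ∧ cons p.1 p.2 ∈ U} := by
      ext a
      constructor
      · rintro ⟨y, hy, hyU⟩
        exact ⟨(a, y), ⟨hy, hyU⟩, rfl⟩
      · rintro ⟨⟨a', y⟩, ⟨hy, hyU⟩, rfl⟩
        exact ⟨y, hy, hyU⟩
    rw [h2]
    exact isOpenMap_fst _ h1
  have hWd : ∀ V ∈ b, Dense (W V) := by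
    intro V hV
    have hVne : V.Nonempty := by
      by_contra hcon
      rw [not_nonempty_iff_eq_empty] at hcon
      exact hbne (hcon ▸ hV)
    rw [dense_iff_inter_open]
    intro O hO hOne
    have hopen : IsOpen {x : X | x 0 ∈ O ∧ (fun n => x (n + 1)) ∈ V} := by
      refine (hO.preimage (continuous_apply 0)).inter ((hb.isOpen hV).preimage ?_)
      exact continuous_pi fun n => continuous_apply (n + 1)
    obtain ⟨a, ha⟩ := hOne
    obtain ⟨y, hy⟩ := hVne
    obtain ⟨x, hx, hxU⟩ := hd.inter_open_nonempty _ hopen ⟨cons a y, ha, hy⟩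
    refine ⟨x 0, hx.1, fun n => x (n + 1), hx.2, ?_⟩
    rw [T5_cons_self]
    exact hxU
  have hmW : ∀ V ∈ b, IsMeagre (W V)ᶜ := by
    intro V hV
    refine IsNowhereDense.isMeagre ?_
    rw [(hWo V hV).isClosed_compl.isNowhereDense_iff, interior_compl, (hWd V hV).closure_eq,
      compl_univ]
  refine (isMeagre_biUnion hbc hmW).mono ?_
  intro a ha
  by_contra hcon
  apply ha
  simp only [mem_iUnion, not_exists, mem_compl_iff, not_not] at hcon
  rw [dense_iff_inter_open]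
  intro O hO hOne
  obtain ⟨y, hy⟩ := hOne
  obtain ⟨V, hV, hyV, hVO⟩ := hb.exists_subset_of_mem_open hy hO
  obtain ⟨z, hz, hzU⟩ := hcon V hV
  exact ⟨z, hVO hz, hzU⟩

theorem isMeagre_bad {T : Set X} (hT : IsMeagre T) : IsMeagre (bad T) := by
  obtain ⟨S, hS, hSc, hTS⟩ := isMeagre_iff_countable_union_isNowhereDense.mp hT
  have h : bad T ⊆ ⋃ F ∈ S, {a : C | ¬ Dense (sec (closure F)ᶜ a)} := by
    intro a ha
    by_contra hcon
    simp only [mem_iUnion, not_exists, mem_ofPred_eq, not_not] at hcon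
    apply ha
    have h1 : sec T a ⊆ ⋃ F ∈ S, sec (closure F) a := by
      intro y hy
      obtain ⟨F, hF, hyF⟩ := hTS hy
      simp only [mem_iUnion]
      exact ⟨F, hF, subset_closure hyF⟩
    refine (isMeagre_biUnion hSc ?_).mono h1
    intro F hF
    refine IsNowhereDense.isMeagre ?_
    have hcl : IsClosed (sec (closure F) a) := isClosed_closure.preimage (T5_continuous_cons_left a)
    have hd : Dense (sec (closure F) a)ᶜ := hcon F hF
    rw [hcl.isNowhereDense_iff, interior_eq_empty_iff_dense_compl]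
    exact hd
  refine (isMeagre_biUnion hSc ?_).mono h
  intro F hF
  refine T5_open isClosed_closure.isOpen_compl ?_
  have := hS F hF
  rw [← interior_eq_empty_iff_dense_compl]
  exact this

end Pool.Agent.MP_a8a7e3
end

section

set_option autoImplicit false

open Set Topology Filter Cardinal

namespace Pool.Agent.MP_a8a7e3

lemma T7_compl_nonempty {Y : Type} [TopologicalSpace Y] [BaireSpace Y] [Nonempty Y] {A : Set Y}
    (hA : IsMeagre A) : Aᶜ.Nonempty := by
  have h : Dense Aᶜ := dense_of_mem_residual hA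
  exact h.nonempty

open Classical in
/-- The chosen point. -/
noncomputable def T7_pt (P Q : Set C) : C :=
  if h : (P \ Q).Nonempty then h.some else if h' : Qᶜ.Nonempty then h'.some else default

lemma T7_pt_not_mem {P Q : Set C} (hQ : IsMeagre Q) : T7_pt P Q ∉ Q := by
  unfold T7_pt
  split_ifs with h h'
  · exact h.some_mem.2
  · exact h'.some_mem
  · exact absurd (T7_compl_nonempty hQ) h'

lemma T7_pt_mem {P Q : Set C} (h : (P \ Q).Nonempty) : T7_pt P Q ∈ P := by
  unfold T7_pt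
  rw [dif_pos h]
  exact h.some_mem.1

/-- The recursive bound. -/
noncomputable def T7_b (κ : ℕ → Cardinal.{0}) (ρ : ℕ → Set C → Ordinal.{0})
    (D : ℕ → Ordinal.{0} → ℕ → Set C) (B : ℕ → Set C) : ℕ → ℕ → Set X → Ordinal.{0}
  | 0, j, T => ρ j (bad T)
  | d + 1, j, T => ⨆ p : (κ j).ord.ToType × ℕ × ℕ,
      T7_b κ ρ D B d (j + 1) (sec T (T7_pt (D j (p.1 : Ordinal.{0}) p.2.1 ∩ B p.2.2) (bad T)))

lemma T7_b_lt (κ : ℕ → Cardinal.{0}) (hreg : ∀ i, (κ i).IsRegular)
    (hκ : StrictMono κ) (ρ : ℕ → Set C → Ordinal.{0}) (hρ : ∀ i, IsRank (κ i) (ρ i))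
    (D : ℕ → Ordinal.{0} → ℕ → Set C) (B : ℕ → Set C) :
    ∀ (d j : ℕ) (T : Set X), IsMeagre T → T7_b κ ρ D B d j T < (κ (j + d)).ord := by
  intro d
  induction d with
  | zero =>
    intro j T hT
    exact (hρ j).lt _ (isMeagre_bad hT)
  | succ d ih =>
    intro j T hT
    have hu : ∀ i, ℵ₀ ≤ κ i := fun i => (hreg i).1
    have hcard : #((κ j).ord.ToType × ℕ × ℕ) < κ (j + (d + 1)) := by
      have h1 : #((κ j).ord.ToType × ℕ × ℕ) ≤ κ j := by
        simp only [Cardinal.mk_prod, Cardinal.lift_id, Cardinal.mk_toType, Cardinal.card_ord,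
          Cardinal.mk_nat, Cardinal.aleph0_mul_aleph0]
        rw [Cardinal.mul_aleph0_eq (hu j)]
      exact h1.trans_lt (hκ (by omega))
    refine Ordinal.iSup_lt_of_lt_cof (by rwa [(hreg _).cof_ord]) ?_
    intro p
    have hm : IsMeagre (sec T (T7_pt (D j (p.1 : Ordinal.{0}) p.2.1 ∩ B p.2.2) (bad T))) := by
      have := T7_pt_not_mem (P := D j (p.1 : Ordinal.{0}) p.2.1 ∩ B p.2.2) (isMeagre_bad hT)
      by_contra hcon
      exact this hcon
    have := ih (j + 1) _ hm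
    rwa [show j + 1 + d = j + (d + 1) by ring] at this

lemma T7_le (κ : ℕ → Cardinal.{0}) (ρ : ℕ → Set C → Ordinal.{0})
    (D : ℕ → Ordinal.{0} → ℕ → Set C) (B : ℕ → Set C) (d j : ℕ) (T : Set X)
    (γ : Ordinal.{0}) (hγ : γ < (κ j).ord) (m o : ℕ) :
    T7_b κ ρ D B d (j + 1) (sec T (T7_pt (D j γ m ∩ B o) (bad T))) ≤ T7_b κ ρ D B (d + 1) j T := by
  have h := Ordinal.le_iSup (fun p : (κ j).ord.ToType × ℕ × ℕ =>
      T7_b κ ρ D B d (j + 1) (sec T (T7_pt (D j (p.1 : Ordinal.{0}) p.2.1 ∩ B p.2.2) (bad T))))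
      (Ordinal.ToType.mk ⟨γ, hγ⟩, m, o)
  rw [T7_b]
  simpa using h

lemma T7_main (κ : ℕ → Cardinal.{0}) (ρ : ℕ → Set C → Ordinal.{0})
    (hρ : ∀ i, IsRank (κ i) (ρ i))
    (D : ℕ → Ordinal.{0} → ℕ → Set C) (hD : ∀ i γ, γ < (κ i).ord → IsBig (ρ i) γ (D i γ))
    (B : ℕ → Set C) (hB : ∀ o, IsOpen (B o)) :
    ∀ (n j : ℕ) (T : Set X), IsMeagre T → ∀ (γ : ℕ → Ordinal.{0}) (g o : ℕ → ℕ),
      (∀ i < n, γ i < (κ (j + i)).ord) → (∀ i < n, T7_b κ ρ D B i j T ≤ γ i) →
      (∀ i < n, (D (j + i) (γ i) (g i) ∩ B (o i)).Nonempty) →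
      ¬ {x : X | ∀ i < n, x i ∈ D (j + i) (γ i) (g i) ∩ B (o i)} ⊆ T := by
  intro n
  induction n with
  | zero =>
    intro j T hT γ g o _ _ _ hsub
    obtain ⟨x, hx⟩ := T7_compl_nonempty hT
    exact hx (hsub (by simp))
  | succ n ih =>
    intro j T hT γ g o h1 h2 h3 hsub
    set P : Set C := D (j + 0) (γ 0) (g 0) ∩ B (o 0) with hP
    have hbadm : IsMeagre (bad T) := isMeagre_bad hT
    have hb0 : ρ j (bad T) ≤ γ 0 := h2 0 (by omega)
    have hbig := (hD (j + 0) (γ 0) (h1 0 (by omega))).big (g 0) (B (o 0)) (hB _) (h3 0 (by omega))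
    have hne : (P \ bad T).Nonempty := by
      by_contra hcon
      rw [not_nonempty_iff_eq_empty, sdiff_eq_empty] at hcon
      have := (hρ j).mono P (bad T) hbadm hcon
      exact absurd (hbig.trans_le (this.trans hb0)) (lt_irrefl _)
    set a : C := T7_pt P (bad T) with ha
    have haP : a ∈ P := T7_pt_mem hne
    have hsec : IsMeagre (sec T a) := by
      have := T7_pt_not_mem (P := P) hbadm
      by_contra hcon
      exact this hcon
    refine ih (j + 1) (sec T a) hsec (fun i => γ (i + 1)) (fun i => g (i + 1))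
      (fun i => o (i + 1)) ?_ ?_ ?_ ?_
    · intro i hi
      have := h1 (i + 1) (by omega)
      rwa [show j + (i + 1) = j + 1 + i by ring] at this
    · intro i hi
      refine le_trans ?_ (h2 (i + 1) (by omega))
      exact T7_le κ ρ D B i j T (γ 0) (h1 0 (by omega)) (g 0) (o 0)
    · intro i hi
      have := h3 (i + 1) (by omega)
      rwa [show j + (i + 1) = j + 1 + i by ring] at this
    · intro y hy
      refine hsub ?_
      intro i hi
      rcases i with _ | i
      · exact haP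
      · have := hy i (by omega)
        rw [show j + (i + 1) = j + 1 + i by ring]
        exact this

theorem exists_bound (κ : ℕ → Cardinal.{0}) (hreg : ∀ i, (κ i).IsRegular) (hunc : ℵ₀ < κ 0)
    (hκ : StrictMono κ) (ρ : ℕ → Set C → Ordinal.{0}) (hρ : ∀ i, IsRank (κ i) (ρ i))
    (D : ℕ → Ordinal.{0} → ℕ → Set C) (hD : ∀ i γ, γ < (κ i).ord → IsBig (ρ i) γ (D i γ))
    (B : ℕ → Set C) (hB : ∀ o, IsOpen (B o)) :
    ∃ b : Set X → ℕ → Ordinal.{0}, (∀ T, IsMeagre T → ∀ i, b T i < (κ i).ord) ∧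
      ∀ T, IsMeagre T → ∀ (n : ℕ) (γ : ℕ → Ordinal.{0}) (g o : ℕ → ℕ),
        (∀ i < n, γ i < (κ i).ord) → (∀ i < n, b T i ≤ γ i) →
        (∀ i < n, (D i (γ i) (g i) ∩ B (o i)).Nonempty) →
        ¬ {x : X | ∀ i < n, x i ∈ D i (γ i) (g i) ∩ B (o i)} ⊆ T := by
  refine ⟨fun T i => T7_b κ ρ D B i 0 T, ?_, ?_⟩
  · intro T hT i
    have := T7_b_lt κ hreg hκ ρ hρ D B i 0 T hT
    rwa [zero_add] at this
  · intro T hT n γ g o h1 h2 h3 hsub
    refine T7_main κ ρ hρ D hD B hB n 0 T hT γ g o ?_ h2 ?_ ?_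
    · intro i hi
      rw [zero_add]
      exact h1 i hi
    · intro i hi
      rw [zero_add]
      exact h3 i hi
    · intro x hx
      refine hsub fun i hi => ?_
      have := hx i hi
      rwa [zero_add] at this

end Pool.Agent.MP_a8a7e3
end

section

set_option autoImplicit false

open Set Topology Filter Cardinal

namespace Pool.Agent.MP_a8a7e3

/-- A family of ordinals indexed by an ordinal below `κ`, with all values below the regular
`κ`, is bounded below `κ`. -/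
lemma T8_bdd {κ μ : Cardinal.{0}} (hκ : κ.IsRegular) (hμ : μ < κ)
    (f : Ordinal.{0} → Ordinal.{0}) (hf : ∀ v < μ.ord, f v < κ.ord) :
    ∃ s < κ.ord, ∀ v < μ.ord, f v ≤ s := by
  have hcard : #(μ.ord.ToType) < κ := by
    rw [Cardinal.mk_toType, Cardinal.card_ord]
    exact hμ
  refine ⟨⨆ x : μ.ord.ToType, f ((Ordinal.ToType.mk.symm x : Set.Iio μ.ord) : Ordinal), ?_, ?_⟩
  · apply Ordinal.iSup_lt_of_lt_cof (by rwa [hκ.cof_ord])
    intro x
    exact hf _ (Ordinal.ToType.mk.symm x).2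
  · intro v hv
    have := Ordinal.le_iSup (fun x : μ.ord.ToType =>
      f ((Ordinal.ToType.mk.symm x : Set.Iio μ.ord) : Ordinal)) (Ordinal.ToType.mk ⟨v, hv⟩)
    simpa using this

lemma T8_bdd_nat {κ : Cardinal.{0}} (hκ : κ.IsRegular) (hμ : ℵ₀ < κ)
    (f : ℕ → Ordinal.{0}) (hf : ∀ v, f v < κ.ord) :
    ∃ s < κ.ord, ∀ v, f v ≤ s := by
  refine ⟨⨆ x : ℕ, f x, ?_, ?_⟩
  · apply Ordinal.iSup_lt_of_lt_cof (by rw [hκ.cof_ord]; simpa using hμ)
    exact hf
  · intro v
    exact Ordinal.le_iSup f v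

lemma T8_pigeon (κ : ℕ → Cardinal.{0}) (hreg : ∀ i, (κ i).IsRegular)
    (hκ : StrictMono κ) (n : ℕ) (b : Ordinal.{0} → ℕ → Ordinal.{0})
    (hb : ∀ γ i, γ < (κ n).ord → b γ i < (κ i).ord) (j : ℕ) (hj : j ≤ n) :
    ∃ c : ℕ → Ordinal.{0}, (∀ i < j, c i < (κ i).ord) ∧
      ∀ δ < (κ n).ord, ∃ γ, δ ≤ γ ∧ γ < (κ n).ord ∧ ∀ i < j, b γ i ≤ c i := by
  induction j with
  | zero =>
    exact ⟨fun _ => 0, by simp, fun δ hδ => ⟨δ, le_rfl, hδ, by simp⟩⟩
  | succ j ih =>
    obtain ⟨c, hc, hcδ⟩ := ih (by omega)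
    by_contra hcon
    push Not at hcon
    -- for every v < (κ j).ord a bound
    have key : ∀ v, v < (κ j).ord → ∃ δ < (κ n).ord, ∀ γ, δ ≤ γ → γ < (κ n).ord →
        (∀ i < j, b γ i ≤ c i) → ¬ b γ j ≤ v := by
      intro v hv
      obtain ⟨δ, hδ, h⟩ := hcon (Function.update c j v) (by
        intro i hi
        rcases Nat.lt_succ_iff_lt_or_eq.1 hi with h | h
        · rw [Function.update_of_ne h.ne]; exact hc i h
        · subst h; simpa using hv)
      refine ⟨δ, hδ, fun γ hγ hγn hi hbv => ?_⟩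
      obtain ⟨i, hij, hlt⟩ := h γ hγ hγn
      rcases Nat.lt_succ_iff_lt_or_eq.1 hij with h | h
      · rw [Function.update_of_ne h.ne] at hlt
        exact absurd (hi i h) (not_le.2 hlt)
      · subst h
        simp only [Function.update_self] at hlt
        exact absurd hbv (not_le.2 hlt)
    choose! f hf hf' using key
    obtain ⟨s, hs, hfs⟩ := T8_bdd (hreg n) (hκ (show j < n by omega)) f hf
    obtain ⟨γ, hsγ, hγn, hγ⟩ := hcδ s hs
    exact hf' (b γ j) (hb γ j hγn) γ ((hfs _ (hb γ j hγn)).trans hsγ) hγn hγ le_rfl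

/-- T8 -/
theorem exists_gamma (κ : ℕ → Cardinal.{0}) (hreg : ∀ i, (κ i).IsRegular) (hunc : ℵ₀ < κ 0)
    (hκ : StrictMono κ) (b : ℕ → Ordinal.{0} → ℕ → Ordinal.{0})
    (hb : ∀ n γ i, γ < (κ n).ord → b n γ i < (κ i).ord) :
    ∃ γ : ℕ → Ordinal.{0}, (∀ n, γ n < (κ n).ord) ∧ ∀ n, ∀ i < n, b n (γ n) i ≤ γ i := by
  have h1 := fun n => T8_pigeon κ hreg hκ n (b n) (hb n) n le_rfl
  choose c hc hcδ using h1
  -- bounds
  have h2 : ∀ i, ∃ s < (κ i).ord, ∀ m, i < m → c m i ≤ s := by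
    intro i
    obtain ⟨s, hs, h⟩ := T8_bdd_nat (hreg i) (hunc.trans_le (hκ.monotone (Nat.zero_le i)))
      (fun m => if i < m then c m i else 0) (by
        intro m
        by_cases hm : i < m
        · simp only [hm, if_true]
          exact hc m i hm
        · simp only [hm, if_false]
          exact (hreg i).ord_pos)
    refine ⟨s, hs, fun m hm => ?_⟩
    have := h m
    simpa only [hm, if_true] using this
  choose s hs hcs using h2
  have h3 := fun n => hcδ n (s n) (hs n)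
  choose γ hγ1 hγ2 hγ3 using h3
  exact ⟨γ, hγ2, fun n i hi => (hγ3 n i hi).trans ((hcs i n hi).trans (hγ1 i))⟩

end Pool.Agent.MP_a8a7e3
end
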